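import Pool.Agent.Helper56.RZ.GoalsA

/-!
Project RZ (MP_f32c9c_an), packet B2: invariant splitting into three bundles.
-/

set_option autoImplicit false

open Set Filter Topology

namespace Pool.Agent.Helper33.RZ

open Pool.Agent.Helper56.RZ

section iter

variable {X : Type} [TopologicalSpace X] {K : ℕ} (C : Coc X K)

theorem An_zero (x : X) : C.An 0 x = C.T x := rfl

theorem An_succ (n : ℕ) (x : X) : C.An (n + 1) x = C.A (C.f^[n] x) * C.An n x := rfl

theorem An_succ' (n : ℕ) : ∀ x : X, C.An (n + 1) x = C.An n (C.f x) * C.A x := by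
  induction n with
  | zero =>
    intro x
    rw [An_succ, An_zero, An_zero, C.TA]
    exact C.AT x
  | succ n ih =>
    intro x
    rw [An_succ, ih x, ← mul_assoc, An_succ, Function.iterate_succ_apply]

theorem An_T (n : ℕ) (x : X) : C.An n x * C.T x = C.An n x := by
  induction n with
  | zero => exact C.TT x
  | succ n ih => rw [An_succ, mul_assoc, ih]

theorem symm_iter (n : ℕ) (x : X) : C.f.symm^[n] (C.f^[n] x) = x :=
  Function.LeftInverse.iterate (fun y => C.f.symm_apply_apply y) n x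

theorem An_mul_inv (n : ℕ) : ∀ x : X, C.An n x * C.inv.An n (C.f^[n] x) = C.T (C.f^[n] x) := by
  induction n with
  | zero => intro x; exact C.TT x
  | succ n ih =>
    intro x
    have h1 : C.inv.An (n + 1) (C.f^[n + 1] x) = C.B (C.f x) * C.inv.An n (C.f^[n] (C.f x)) := by
      rw [An_succ]
      have h2 : C.inv.f^[n] (C.f^[n + 1] x) = C.f x := by
        rw [Function.iterate_succ_apply]
        exact symm_iter C n (C.f x)
      rw [h2, Function.iterate_succ_apply]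
      rfl
    rw [h1, An_succ', Function.iterate_succ_apply, ← ih (C.f x)]
    rw [show C.An n (C.f x) * C.A x * (C.B (C.f x) * C.inv.An n (C.f^[n] (C.f x))) =
      C.An n (C.f x) * (C.A x * C.B (C.f x)) * C.inv.An n (C.f^[n] (C.f x)) by
        simp only [mul_assoc], C.AB, An_T]

theorem An_equiv (Z : X → End K) (h1 : ∀ x, C.T x * Z x = Z x) (h2 : ∀ x, Z x * C.T x = Z x)
    (h3 : ∀ x, C.A x * Z x = Z (C.f x) * C.A x) (n : ℕ) (x : X) :
    C.An n x * Z x = Z (C.f^[n] x) * C.An n x := by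
  induction n with
  | zero => rw [An_zero, h1]; exact (h2 x).symm
  | succ n ih =>
    rw [An_succ, mul_assoc, ih, ← mul_assoc, h3, mul_assoc, Function.iterate_succ_apply']

theorem An_conj (Z : X → End K) (h1 : ∀ x, C.T x * Z x = Z x) (h2 : ∀ x, Z x * C.T x = Z x)
    (h3 : ∀ x, C.A x * Z x = Z (C.f x) * C.A x) (n : ℕ) (x : X) :
    C.An n x * Z x * C.inv.An n (C.f^[n] x) = Z (C.f^[n] x) := by
  rw [An_equiv C Z h1 h2 h3, mul_assoc, An_mul_inv, h2]

theorem An_norm {M : ℝ} (hA : ∀ x, ‖C.A x‖ ≤ M) (hT : ∀ x, ‖C.T x‖ ≤ M) (n : ℕ) (x : X) :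
    ‖C.An n x‖ ≤ M ^ (n + 1) := by
  have hM : 0 ≤ M := (norm_nonneg _).trans (hT x)
  induction n with
  | zero => rw [zero_add, pow_one]; exact hT x
  | succ n ih =>
    rw [An_succ, pow_succ, mul_comm (M ^ (n + 1))]
    exact (norm_mul_le _ _).trans (mul_le_mul (hA _) ih (norm_nonneg _) hM)

theorem inv_equiv (Q : X → End K) (h1 : ∀ x, C.T x * Q x = Q x) (h2 : ∀ x, Q x * C.T x = Q x)
    (h3 : ∀ x, C.A x * Q x = Q (C.f x) * C.A x) (x : X) :
    C.B x * Q x = Q (C.f.symm x) * C.B x := by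
  obtain ⟨y, rfl⟩ := C.f.surjective x
  rw [C.f.symm_apply_apply]
  calc C.B (C.f y) * Q (C.f y) = C.B (C.f y) * (Q (C.f y) * C.T (C.f y)) := by rw [h2]
    _ = C.B (C.f y) * (Q (C.f y) * (C.A y * C.B (C.f y))) := by rw [C.AB]
    _ = C.B (C.f y) * (Q (C.f y) * C.A y) * C.B (C.f y) := by simp only [mul_assoc]
    _ = C.B (C.f y) * (C.A y * Q y) * C.B (C.f y) := by rw [h3]
    _ = (C.B (C.f y) * C.A y) * Q y * C.B (C.f y) := by simp only [mul_assoc]
    _ = Q y * C.B (C.f y) := by rw [C.BA, h1]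

end iter

/-- product of two nearly complementary invariant projections vanishes -/
theorem van {X : Type} [MetricSpace X] [CompactSpace X] {K : ℕ} (C : Coc X K)
    (p q Qa Qb : X → End K) (n : ℕ) (l ε M R : ℝ)
    (ca : Continuous Qa) (cb : Continuous Qb)
    (aa : ∀ x, Qa x * Qa x = Qa x) (bb : ∀ x, Qb x * Qb x = Qb x)
    (Ta : ∀ x, C.T x * Qa x = Qa x) (bT : ∀ x, Qb x * C.T x = Qb x)
    (ea : ∀ x, C.A x * Qa x = Qa (C.f x) * C.A x) (eb : ∀ x, C.A x * Qb x = Qb (C.f x) * C.A x)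
    (pp : ∀ x, p x * p x = p x) (qq : ∀ x, q x * q x = q x)
    (hp : ∀ x, ‖p x‖ ≤ R) (hq : ∀ x, ‖q x‖ ≤ R)
    (hap : ∀ x, ‖Qa x - p x‖ ≤ ε) (hbq : ∀ x, ‖Qb x - q x‖ ≤ ε)
    (hA : ∀ x, ‖C.A x‖ ≤ M) (hB : ∀ x, ‖C.B x‖ ≤ M) (hT : ∀ x, ‖C.T x‖ ≤ M)
    (hl : 0 ≤ l) (hε : ε ≤ 1)
    (hs : ∀ (x : X) (s : End K), p x * s * q x = s →
      ‖C.An n x * s * C.inv.An n (C.f^[n] x)‖ ≤ l * ‖s‖)
    (hnum : l + (l + M ^ (n + 1) * M ^ (n + 1)) * (ε * (2 * R + 1)) < 1) :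
    ∀ x, Qa x * Qb x = 0 := by
  intro x0
  have : Nonempty X := ⟨x0⟩
  have hε0 : 0 ≤ ε := (norm_nonneg _).trans (hap x0)
  have hR0 : 0 ≤ R := (norm_nonneg _).trans (hp x0)
  have hM0 : 0 ≤ M := (norm_nonneg _).trans (hA x0)
  set Y : X → End K := fun x => Qa x * Qb x with hY
  have hYc : Continuous (fun x => ‖Y x‖) := (ca.mul cb).norm
  obtain ⟨y0, _, hy0⟩ := isCompact_univ.exists_isMaxOn (Set.univ_nonempty (α := X))
    hYc.continuousOn
  have hmax : ∀ x, ‖Y x‖ ≤ ‖Y y0‖ := fun x => hy0 (Set.mem_univ x)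
  set L : ℝ := l + (l + M ^ (n + 1) * M ^ (n + 1)) * (ε * (2 * R + 1)) with hL
  have key : ∀ x, ‖Y (C.f^[n] x)‖ ≤ L * ‖Y x‖ := by
    intro x
    have e1 : C.An n x * Y x * C.inv.An n (C.f^[n] x) = Y (C.f^[n] x) := by
      apply An_conj C Y
      · intro x
        change C.T x * (Qa x * Qb x) = Qa x * Qb x
        rw [← mul_assoc, Ta]
      · intro x
        change (Qa x * Qb x) * C.T x = Qa x * Qb x
        rw [mul_assoc, bT]
      · intro x
        change C.A x * (Qa x * Qb x) = (Qa (C.f x) * Qb (C.f x)) * C.A x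
        rw [← mul_assoc, ea, mul_assoc, eb, mul_assoc]
    set s : End K := p x * Y x * q x with hsdef
    have hs1 : p x * s * q x = s := by
      rw [hsdef]
      calc p x * (p x * Y x * q x) * q x = (p x * p x) * Y x * (q x * q x) := by
            simp only [mul_assoc]
        _ = p x * Y x * q x := by rw [pp, qq]
    have hYQ : Qa x * Y x * Qb x = Y x := by
      change Qa x * (Qa x * Qb x) * Qb x = Qa x * Qb x
      rw [← mul_assoc, aa, mul_assoc, bb]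
    have hd : Y x - s = (Qa x - p x) * Y x * Qb x + p x * Y x * (Qb x - q x) := by
      rw [hsdef, mul_sub, sub_mul, sub_mul, hYQ]
      abel
    have hQb : ‖Qb x‖ ≤ R + ε := by
      calc ‖Qb x‖ = ‖(Qb x - q x) + q x‖ := by rw [sub_add_cancel]
        _ ≤ ‖Qb x - q x‖ + ‖q x‖ := norm_add_le _ _
        _ ≤ R + ε := by linarith [hbq x, hq x]
    have hY0 : 0 ≤ ‖Y x‖ := norm_nonneg _
    have hd1 : ‖Y x - s‖ ≤ (ε * (2 * R + 1)) * ‖Y x‖ := by
      rw [hd]
      have b1 : ‖(Qa x - p x) * Y x * Qb x‖ ≤ ε * ‖Y x‖ * (R + ε) := by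
        refine (norm_mul_le _ _).trans ?_
        refine mul_le_mul ((norm_mul_le _ _).trans ?_) hQb (norm_nonneg _) (by positivity)
        exact mul_le_mul_of_nonneg_right (hap x) hY0
      have b2 : ‖p x * Y x * (Qb x - q x)‖ ≤ R * ‖Y x‖ * ε := by
        refine (norm_mul_le _ _).trans ?_
        refine mul_le_mul ((norm_mul_le _ _).trans ?_) (hbq x) (norm_nonneg _) (by positivity)
        exact mul_le_mul_of_nonneg_right (hp x) hY0
      refine (norm_add_le _ _).trans ((add_le_add b1 b2).trans ?_)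
      have : ε * ‖Y x‖ * ε ≤ ε * ‖Y x‖ * 1 := mul_le_mul_of_nonneg_left hε (by positivity)
      nlinarith
    have hs2 : ‖s‖ ≤ (1 + ε * (2 * R + 1)) * ‖Y x‖ := by
      calc ‖s‖ = ‖Y x - (Y x - s)‖ := by rw [sub_sub_cancel]
        _ ≤ ‖Y x‖ + ‖Y x - s‖ := norm_sub_le _ _
        _ ≤ ‖Y x‖ + (ε * (2 * R + 1)) * ‖Y x‖ := by linarith
        _ = (1 + ε * (2 * R + 1)) * ‖Y x‖ := by ring
    have hi : ‖C.inv.An n (C.f^[n] x)‖ ≤ M ^ (n + 1) := An_norm C.inv hB hT n _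
    have ha : ‖C.An n x‖ ≤ M ^ (n + 1) := An_norm C hA hT n _
    have hMn : 0 ≤ M ^ (n + 1) := by positivity
    rw [← e1]
    have e2 : C.An n x * Y x * C.inv.An n (C.f^[n] x) =
        C.An n x * s * C.inv.An n (C.f^[n] x) +
          C.An n x * (Y x - s) * C.inv.An n (C.f^[n] x) := by
      rw [mul_sub, sub_mul]; abel
    rw [e2]
    have b3 : ‖C.An n x * (Y x - s) * C.inv.An n (C.f^[n] x)‖ ≤
        M ^ (n + 1) * ((ε * (2 * R + 1)) * ‖Y x‖) * M ^ (n + 1) := by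
      refine (norm_mul_le _ _).trans ?_
      refine mul_le_mul ((norm_mul_le _ _).trans ?_) hi (norm_nonneg _) (by positivity)
      exact mul_le_mul ha hd1 (norm_nonneg _) hMn
    have b4 := hs x s hs1
    have b5 : l * ‖s‖ ≤ l * ((1 + ε * (2 * R + 1)) * ‖Y x‖) := mul_le_mul_of_nonneg_left hs2 hl
    refine (norm_add_le _ _).trans ((add_le_add (b4.trans b5) b3).trans (le_of_eq ?_))
    rw [hL]
    ring
  have hsur : Function.Surjective (C.f^[n]) := C.f.surjective.iterate n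
  obtain ⟨x1, hx1⟩ := hsur y0
  have h1 := key x1
  rw [hx1] at h1
  have h2 : L * ‖Y x1‖ ≤ L * ‖Y y0‖ := by
    have : 0 ≤ L := by rw [hL]; positivity
    exact mul_le_mul_of_nonneg_left (hmax x1) this
  have h3 : ‖Y y0‖ = 0 := by
    have : 0 ≤ ‖Y y0‖ := norm_nonneg _
    nlinarith
  have h4 : ‖Y x0‖ ≤ 0 := h3 ▸ hmax x0
  exact norm_le_zero_iff.1 h4

section pairs

variable {X : Type} [TopologicalSpace X] {K : ℕ} {C : Coc X K} {P : Fin 3 → X → End K}

theorem spl_T (h : Spl C P) (i : Fin 3) (x : X) : C.T x * P i x = P i x := by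
  rw [← h.sum, add_mul, add_mul, h.proj, h.proj, h.proj]
  fin_cases i <;> simp

theorem spl_T' (h : Spl C P) (i : Fin 3) (x : X) : P i x * C.T x = P i x := by
  rw [← h.sum, mul_add, mul_add, h.proj, h.proj, h.proj]
  fin_cases i <;> simp

theorem spl_inv (h : Spl C P) : Spl C.inv P where
  cont := h.cont
  proj := h.proj
  sum := h.sum
  ne := h.ne
  inv := fun x i => inv_equiv C (P i) (spl_T h i) (spl_T' h i) (fun x => h.inv x i) x

theorem pp0 (h : Spl C P) (i : Fin 3) (x : X) : P i x * P i x = P i x := by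
  rw [h.proj, if_pos rfl]

theorem pn0 (h : Spl C P) {i j : Fin 3} (hij : i ≠ j) (x : X) : P i x * P j x = 0 := by
  rw [h.proj, if_neg hij]

theorem pair1 (h : Spl C P) : Pair C (P 2) (fun x => P 0 x + P 1 x) where
  contF := h.cont 2
  contG := (h.cont 0).add (h.cont 1)
  FF := fun x => pp0 h 2 x
  GG := fun x => by
    rw [add_mul, mul_add, mul_add, pp0 h, pp0 h, pn0 h (by decide : (0 : Fin 3) ≠ 1),
      pn0 h (by decide : (1 : Fin 3) ≠ 0), add_zero, zero_add]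
  FG := fun x => by
    rw [mul_add, pn0 h (by decide : (2 : Fin 3) ≠ 0), pn0 h (by decide : (2 : Fin 3) ≠ 1),
      add_zero]
  GF := fun x => by
    rw [add_mul, pn0 h (by decide : (0 : Fin 3) ≠ 2), pn0 h (by decide : (1 : Fin 3) ≠ 2),
      add_zero]
  sum := fun x => by rw [← h.sum]; abel
  AF := fun x => h.inv x 2
  AG := fun x => by rw [mul_add, add_mul, h.inv x 0, h.inv x 1]

theorem pair2 (h : Spl C P) : Pair C (fun x => P 1 x + P 2 x) (P 0) where
  contF := (h.cont 1).add (h.cont 2)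
  contG := h.cont 0
  FF := fun x => by
    rw [add_mul, mul_add, mul_add, pp0 h, pp0 h, pn0 h (by decide : (1 : Fin 3) ≠ 2),
      pn0 h (by decide : (2 : Fin 3) ≠ 1), add_zero, zero_add]
  GG := fun x => pp0 h 0 x
  FG := fun x => by
    rw [add_mul, pn0 h (by decide : (1 : Fin 3) ≠ 0), pn0 h (by decide : (2 : Fin 3) ≠ 0),
      add_zero]
  GF := fun x => by
    rw [mul_add, pn0 h (by decide : (0 : Fin 3) ≠ 1), pn0 h (by decide : (0 : Fin 3) ≠ 2),
      add_zero]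
  sum := fun x => by rw [← h.sum]; abel
  AF := fun x => by rw [mul_add, add_mul, h.inv x 1, h.inv x 2]
  AG := fun x => h.inv x 0

theorem pair3 (h : Spl C P) : Pair C (P 0) (fun x => P 1 x + P 2 x) where
  contF := (pair2 h).contG
  contG := (pair2 h).contF
  FF := (pair2 h).GG
  GG := (pair2 h).FF
  FG := (pair2 h).GF
  GF := (pair2 h).FG
  sum := fun x => by rw [add_comm]; exact (pair2 h).sum x
  AF := (pair2 h).AG
  AG := (pair2 h).AF

end pairs

theorem sumL {K : ℕ} {a b m c : End K} {κ : ℝ} (h1 : ‖a * m * c‖ ≤ κ) (h2 : ‖b * m * c‖ ≤ κ) :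
    ‖(a + b) * m * c‖ ≤ 2 * κ := by
  rw [add_mul, add_mul]
  exact (norm_add_le _ _).trans (by linarith)

theorem sumR {K : ℕ} {a b m c : End K} {κ : ℝ} (h1 : ‖c * m * a‖ ≤ κ) (h2 : ‖c * m * b‖ ≤ κ) :
    ‖c * m * (a + b)‖ ≤ 2 * κ := by
  rw [mul_add]
  exact (norm_add_le _ _).trans (by linarith)

theorem bdd {X : Type} [TopologicalSpace X] [CompactSpace X] {K : ℕ} {f : X → End K}
    (hf : Continuous f) : ∃ R : ℝ, 0 ≤ R ∧ ∀ x, ‖f x‖ ≤ R := by
  obtain ⟨R, hR⟩ := isCompact_univ.exists_bound_of_continuousOn hf.continuousOn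
  exact ⟨max R 0, le_max_right _ _, fun x => (hR x (Set.mem_univ x)).trans (le_max_left _ _)⟩

theorem exists_eps (l D W : ℝ) (hl : l < 1) (hD : 0 ≤ D) (hW : 0 ≤ W) :
    ∃ e : ℝ, 0 < e ∧ ∀ ε : ℝ, ε ≤ e → l + D * (ε * W) < 1 := by
  have h1 : 0 < D * W + 1 := by positivity
  refine ⟨(1 - l) / (2 * (D * W + 1)), div_pos (by linarith) (by positivity), ?_⟩
  intro ε hε
  have h2 : D * (ε * W) ≤ D * ((1 - l) / (2 * (D * W + 1)) * W) :=
    mul_le_mul_of_nonneg_left (mul_le_mul_of_nonneg_right hε hW) hD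
  have h3 : D * ((1 - l) / (2 * (D * W + 1)) * W) = (D * W) / (D * W + 1) * ((1 - l) / 2) := by
    field_simp
  have h4 : (D * W) / (D * W + 1) ≤ 1 := by
    rw [div_le_one h1]; linarith
  have h5 : (D * W) / (D * W + 1) * ((1 - l) / 2) ≤ 1 * ((1 - l) / 2) :=
    mul_le_mul_of_nonneg_right h4 (by linarith)
  linarith

theorem near_mono {X : Type} [MetricSpace X] {K : ℕ} {H : Coc X K} {δ δ' : ℝ} (h : Near H δ)
    (hd : δ ≤ δ') : Near H δ' := fun x =>
  ⟨(h x).1.trans hd, (h x).2.1.trans hd, (h x).2.2.trans hd⟩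

theorem close_mono {X : Type} [MetricSpace X] {K : ℕ} {C C' : Coc X K} {δ δ' : ℝ}
    (h : Close C C' δ) (hd : δ ≤ δ') : Close C C' δ' := ⟨h.1, fun x =>
  ⟨(h.2 x).1.trans hd, (h.2 x).2.1.trans hd, (h.2 x).2.2.1.trans hd, (h.2 x).2.2.2.trans hd⟩⟩

theorem norm_of_close {K : ℕ} {a b : End K} {M : ℝ} (h : ‖b‖ ≤ M) (h' : ‖a - b‖ ≤ 1) :
    ‖a‖ ≤ M + 1 := by
  calc ‖a‖ = ‖(a - b) + b‖ := by rw [sub_add_cancel]
    _ ≤ ‖a - b‖ + ‖b‖ := norm_add_le _ _
    _ ≤ M + 1 := by linarith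

theorem one_le_norm {K : ℕ} {p : End K} (h : p * p = p) (h0 : p ≠ 0) : 1 ≤ ‖p‖ := by
  have h1 : ‖p‖ ≤ ‖p‖ * ‖p‖ := by
    calc ‖p‖ = ‖p * p‖ := by rw [h]
      _ ≤ ‖p‖ * ‖p‖ := norm_mul_le _ _
  have h2 : 0 < ‖p‖ := norm_pos_iff.2 h0
  nlinarith

theorem sub_inv {X : Type} [TopologicalSpace X] {K : ℕ} {C : Coc X K} {Q : X → End K}
    (h : Sub C Q) : Sub C.inv Q where
  cont := h.cont
  PP := h.PP
  PT := h.PT
  TP := h.TP
  inv := fun x => inv_equiv C Q h.TP h.PT h.inv x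

theorem sub_compl {X : Type} [TopologicalSpace X] {K : ℕ} {C : Coc X K} {Q : X → End K}
    (h : Sub C Q) : Sub C (fun x => C.T x - Q x) where
  cont := C.contT.sub h.cont
  PP := fun x => by
    rw [sub_mul, mul_sub, mul_sub, C.TT, h.TP, h.PT, h.PP, sub_self, sub_zero]
  PT := fun x => by rw [sub_mul, C.TT, h.PT]
  TP := fun x => by rw [mul_sub, C.TT, h.TP]
  inv := fun x => by rw [mul_sub, sub_mul, C.AT, C.TA, h.inv]

theorem b2 (hA1 : StmtA1) (hB1 : StmtB1) (hCL : StmtCL) (hCS : StmtCS) : StmtB2 := by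
  intro X _ _ K C P n hS hD
  obtain ⟨k1, k2, k3, k4⟩ := hA1 X K C P n hS hD
  obtain ⟨δ1, c1, l1, hδ1, hc1, hl1, hl1', hb1⟩ :=
    hB1 X K C (P 2) (fun x => P 0 x + P 1 x) (pair1 hS) k1 k4
  obtain ⟨δ2, c2, l2, hδ2, hc2, hl2, hl2', hb2⟩ :=
    hB1 X K C (fun x => P 1 x + P 2 x) (P 0) (pair2 hS) k2 k3
  obtain ⟨δ3, l3, n3, hδ3, hl3, hl3', hs3⟩ :=
    hCS X K C (P 2) (fun x => P 0 x + P 1 x) (pair1 hS) k1
  obtain ⟨δ4, l4, n4, hδ4, hl4, hl4', hs4⟩ :=
    hCS X K C.inv (P 0) (fun x => P 1 x + P 2 x) (pair3 (spl_inv hS)) k3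
  obtain ⟨R0, hR00, hR0⟩ := bdd (hS.cont 0)
  obtain ⟨R2, hR20, hR2⟩ := bdd (hS.cont 2)
  obtain ⟨MA, hMA0, hMA⟩ := bdd C.contA
  obtain ⟨MB, hMB0, hMB⟩ := bdd C.contB
  obtain ⟨MT, hMT0, hMT⟩ := bdd C.contT
  set R : ℝ := R0 + R2 with hR
  set M : ℝ := MA + MB + MT + 1 with hM
  have hM0 : 0 ≤ M := by positivity
  obtain ⟨e3, he3, he3'⟩ := exists_eps l3 (l3 + M ^ (n3 + 1) * M ^ (n3 + 1)) (2 * R + 1) hl3'
    (by positivity) (by positivity)
  obtain ⟨e4, he4, he4'⟩ := exists_eps l4 (l4 + M ^ (n4 + 1) * M ^ (n4 + 1)) (2 * R + 1) hl4'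
    (by positivity) (by positivity)
  obtain ⟨δ5, hδ5, hcl⟩ := hCL X K C (min δ3 (min δ4 1)) (by positivity)
  set ε : ℝ := min e3 (min e4 (1 / 2)) with hε
  have hε0 : 0 < ε := by positivity
  set c : ℝ := 2 * (c1 + c2) with hc
  have hc0 : 0 < c := by positivity
  refine ⟨min δ1 (min δ2 (min δ5 (ε / c))), c, max l1 l2, by positivity, by linarith,
    lt_max_of_lt_left hl1, max_lt hl1' hl2', ?_⟩
  intro H e hN κ hκ hoff
  have hκε : ∀ a : ℝ, 0 ≤ κ → a ≤ c * κ → a ≤ ε := by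
    intro a hκ0 ha
    have h1 : κ ≤ ε / c := hκ.trans ((min_le_right _ _).trans ((min_le_right _ _).trans
      (min_le_right _ _)))
    rw [le_div_iff₀ hc0] at h1
    linarith
  have hκ0 : ∀ x : X, 0 ≤ κ := fun x => (norm_nonneg _).trans (hoff x 0 1 (by decide)).1
  obtain ⟨Q2, s2, q2, past2, fut2⟩ := hb1 H e (near_mono hN (min_le_left _ _)) (2 * κ)
    (fun x => ⟨sumL (hoff x 0 2 (by decide)).1 (hoff x 1 2 (by decide)).1,
      sumR (hoff x 2 0 (by decide)).1 (hoff x 2 1 (by decide)).1,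
      sumL (hoff x 0 2 (by decide)).2 (hoff x 1 2 (by decide)).2,
      sumR (hoff x 2 0 (by decide)).2 (hoff x 2 1 (by decide)).2⟩)
  obtain ⟨Q12, s12, q12, past12, fut12⟩ := hb2 H e
    (near_mono hN ((min_le_right _ _).trans (min_le_left _ _))) (2 * κ)
    (fun x => ⟨sumR (hoff x 0 1 (by decide)).1 (hoff x 0 2 (by decide)).1,
      sumL (hoff x 1 0 (by decide)).1 (hoff x 2 0 (by decide)).1,
      sumR (hoff x 0 1 (by decide)).2 (hoff x 0 2 (by decide)).2,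
      sumL (hoff x 1 0 (by decide)).2 (hoff x 2 0 (by decide)).2⟩)
  obtain ⟨cl, cl'⟩ := hcl H e (near_mono hN ((min_le_right _ _).trans ((min_le_right _ _).trans
    (min_le_left _ _))))
  set C' := C.comp H e with hC'
  set Q0 : X → End K := fun x => C'.T x - Q12 x with hQ0
  have s0 : Sub C' Q0 := sub_compl s12
  have hTT : ∀ x, C'.T x = C.T x := fun x => rfl
  -- distances
  have d2 : ∀ x, ‖Q2 x - P 2 x‖ ≤ c * κ := by
    intro x
    have h1 := q2 x
    have h2 : 0 ≤ c2 * κ := mul_nonneg (by linarith) (hκ0 x)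
    rw [hc]; linarith
  have d0' : ∀ x, ‖Q0 x - P 0 x‖ ≤ c2 * (2 * κ) := by
    intro x
    have h1 := q12 x
    have h3 : Q0 x - P 0 x = -(Q12 x - (P 1 x + P 2 x)) := by
      have h4 : Q0 x = P 0 x + P 1 x + P 2 x - Q12 x := by
        rw [hQ0]
        change C.T x - Q12 x = _
        rw [← hS.sum]
      rw [h4]; abel
    rw [h3, norm_neg]
    exact h1
  have d0 : ∀ x, ‖Q0 x - P 0 x‖ ≤ c * κ := by
    intro x
    have h1 := d0' x
    have h2 : 0 ≤ c1 * κ := mul_nonneg (by linarith) (hκ0 x)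
    rw [hc]; linarith
  have hMM : ∀ x, ‖C'.A x‖ ≤ M ∧ ‖C'.B x‖ ≤ M ∧ ‖C'.T x‖ ≤ M := by
    intro x
    have h1 : min δ3 (min δ4 1) ≤ 1 := (min_le_right _ _).trans (min_le_right _ _)
    have h2 := norm_of_close (hMA x) ((cl.2 x).2.2.1.trans h1)
    have h3 := norm_of_close (hMB x) ((cl.2 x).2.2.2.trans h1)
    have h4 : ‖C'.T x‖ ≤ MT := hMT x
    refine ⟨?_, ?_, ?_⟩ <;> rw [hM] <;> linarith
  have hε1 : ε ≤ 1 := (min_le_right _ _).trans ((min_le_right _ _).trans (by norm_num))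
  have hP0 : ∀ x, ‖P 0 x‖ ≤ R := fun x => by rw [hR]; linarith [hR0 x]
  have hP2 : ∀ x, ‖P 2 x‖ ≤ R := fun x => by rw [hR]; linarith [hR2 x]
  have z02 : ∀ x, Q0 x * Q2 x = 0 := by
    apply van C' (P 0) (P 2) Q0 Q2 n3 l3 ε M R s0.cont s2.cont s0.PP s2.PP s0.TP s2.PT s0.inv s2.inv
      (pp0 hS 0) (pp0 hS 2) hP0 hP2 (fun x => hκε _ (hκ0 x) (d0 x))
      (fun x => hκε _ (hκ0 x) (d2 x)) (fun x => (hMM x).1) (fun x => (hMM x).2.1)
      (fun x => (hMM x).2.2) hl3.le hε1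
    · intro x s hs
      apply hs3 C' (close_mono cl (min_le_left _ _)) x s
      rw [← hs]
      calc (P 0 x + P 1 x) * (P 0 x * s * P 2 x) * P 2 x
          = ((P 0 x * P 0 x) + (P 1 x * P 0 x)) * s * (P 2 x * P 2 x) := by
            simp only [mul_assoc, add_mul]
        _ = P 0 x * s * P 2 x := by
            rw [pp0 hS 0, pp0 hS 2, pn0 hS (by decide : (1 : Fin 3) ≠ 0), add_zero]
    · exact he3' ε (min_le_left _ _)
  have z20 : ∀ x, Q2 x * Q0 x = 0 := by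
    have s0' := sub_inv s0
    have s2' := sub_inv s2
    apply van C'.inv (P 2) (P 0) Q2 Q0 n4 l4 ε M R s2.cont s0.cont s2.PP s0.PP s2'.TP s0'.PT
      s2'.inv s0'.inv (pp0 hS 2) (pp0 hS 0) hP2 hP0 (fun x => hκε _ (hκ0 x) (d2 x))
      (fun x => hκε _ (hκ0 x) (d0 x)) (fun x => (hMM x).2.1) (fun x => (hMM x).1)
      (fun x => (hMM x).2.2) hl4.le hε1
    · intro x s hs
      apply hs4 C'.inv (close_mono cl' ((min_le_right _ _).trans (min_le_left _ _))) x s
      rw [← hs]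
      calc (P 1 x + P 2 x) * (P 2 x * s * P 0 x) * P 0 x
          = ((P 1 x * P 2 x) + (P 2 x * P 2 x)) * s * (P 0 x * P 0 x) := by
            simp only [mul_assoc, add_mul]
        _ = P 2 x * s * P 0 x := by
            rw [pp0 hS 0, pp0 hS 2, pn0 hS (by decide : (1 : Fin 3) ≠ 2), zero_add]
    · exact he4' ε ((min_le_right _ _).trans (min_le_left _ _))
  -- the splitting
  have hQ12 : ∀ x, Q12 x = C'.T x - Q0 x := by
    intro x
    rw [hQ0]
    simp only [sub_sub_cancel]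
  let Q : Fin 3 → X → End K := ![Q0, fun x => C'.T x - Q0 x - Q2 x, Q2]
  have hQ0' : Q 0 = Q0 := rfl
  have hQ1' : Q 1 = fun x => C'.T x - Q0 x - Q2 x := rfl
  have hQ2' : Q 2 = Q2 := rfl
  have m00 := s0.PP
  have m22 := s2.PP
  have m01 : ∀ x, Q0 x * (C'.T x - Q0 x - Q2 x) = 0 := by
    intro x
    rw [mul_sub, mul_sub, s0.PT, s0.PP, z02, sub_self, sub_zero]
  have m10 : ∀ x, (C'.T x - Q0 x - Q2 x) * Q0 x = 0 := by
    intro x
    rw [sub_mul, sub_mul, s0.TP, s0.PP, z20, sub_self, sub_zero]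
  have m21 : ∀ x, Q2 x * (C'.T x - Q0 x - Q2 x) = 0 := by
    intro x
    rw [mul_sub, mul_sub, s2.PT, s2.PP, z20, sub_zero, sub_self]
  have m12 : ∀ x, (C'.T x - Q0 x - Q2 x) * Q2 x = 0 := by
    intro x
    rw [sub_mul, sub_mul, s2.TP, s2.PP, z02, sub_zero, sub_self]
  have m1T : ∀ x, (C'.T x - Q0 x - Q2 x) * C'.T x = C'.T x - Q0 x - Q2 x := by
    intro x
    rw [sub_mul, sub_mul, C'.TT, s0.PT, s2.PT]
  have mT1 : ∀ x, C'.T x * (C'.T x - Q0 x - Q2 x) = C'.T x - Q0 x - Q2 x := by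
    intro x
    rw [mul_sub, mul_sub, C'.TT, s0.TP, s2.TP]
  have m11 : ∀ x, (C'.T x - Q0 x - Q2 x) * (C'.T x - Q0 x - Q2 x) = C'.T x - Q0 x - Q2 x := by
    intro x
    rw [mul_sub, mul_sub, m1T, m10, m12, sub_zero, sub_zero]
  have dist1 : ∀ x, ‖(C'.T x - Q0 x - Q2 x) - P 1 x‖ ≤ c * κ := by
    intro x
    have h1 : (C'.T x - Q0 x - Q2 x) - P 1 x = -((Q0 x - P 0 x) + (Q2 x - P 2 x)) := by
      rw [hTT, ← hS.sum]; abel
    rw [h1, norm_neg]
    refine (norm_add_le _ _).trans ?_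
    have h2 := d0' x
    have h3 := q2 x
    rw [hc]; linarith
  have hdist : ∀ x i, ‖Q i x - P i x‖ ≤ c * κ := by
    intro x i
    fin_cases i
    · exact d0 x
    · exact dist1 x
    · exact d2 x
  have q12one : ∀ x v, Q 1 x v = v → Q12 x v = v := by
    intro x v hv
    have h1 : Q12 x * Q 1 x = Q 1 x := by
      rw [hQ12, hQ1']
      change (C'.T x - Q0 x) * (C'.T x - Q0 x - Q2 x) = C'.T x - Q0 x - Q2 x
      rw [sub_mul, mT1, m01, sub_zero]
    calc Q12 x v = Q12 x (Q 1 x v) := by rw [hv]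
      _ = (Q12 x * Q 1 x) v := rfl
      _ = v := by rw [h1, hv]
  have hlJ : ∀ J : ℕ, l1 ^ J ≤ (max l1 l2) ^ J ∧ l2 ^ J ≤ (max l1 l2) ^ J := fun J =>
    ⟨pow_le_pow_left₀ hl1.le (le_max_left _ _) J, pow_le_pow_left₀ hl2.le (le_max_right _ _) J⟩
  refine ⟨Q, ⟨?_, ?_, ?_, ?_, ?_⟩, hdist, ?_, ?_⟩
  · intro i
    fin_cases i
    · exact s0.cont
    · exact (C'.contT.sub s0.cont).sub s2.cont
    · exact s2.cont
  · intro x i j
    fin_cases i <;> fin_cases j
    · exact (m00 x).trans (if_pos rfl).symm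
    · exact (m01 x).trans (if_neg (by decide)).symm
    · exact (z02 x).trans (if_neg (by decide)).symm
    · exact (m10 x).trans (if_neg (by decide)).symm
    · exact (m11 x).trans (if_pos rfl).symm
    · exact (m12 x).trans (if_neg (by decide)).symm
    · exact (z20 x).trans (if_neg (by decide)).symm
    · exact (m21 x).trans (if_neg (by decide)).symm
    · exact (m22 x).trans (if_pos rfl).symm
  · intro x
    change Q0 x + (C'.T x - Q0 x - Q2 x) + Q2 x = C'.T x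
    abel
  · intro x i h0
    have h1 := hκε _ (hκ0 x) (hdist x i)
    rw [h0, zero_sub, norm_neg] at h1
    have h2 := one_le_norm (pp0 hS i x) (hS.ne x i)
    have h3 : ε ≤ 1 / 2 := (min_le_right _ _).trans (min_le_right _ _)
    linarith
  · intro x i
    fin_cases i
    · exact s0.inv x
    · change C'.A x * (C'.T x - Q0 x - Q2 x) = (C'.T (C'.f x) - Q0 (C'.f x) - Q2 (C'.f x)) * C'.A x
      rw [mul_sub, mul_sub, sub_mul, sub_mul, C'.AT, C'.TA, s0.inv, s2.inv]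
    · exact s2.inv x
  · intro J x hJ v hv
    have h1 := past12 J x hJ v (q12one x v hv)
    refine h1.trans ?_
    have h2 := (hlJ J).2
    have hκx := hκ0 x
    have h3 : 0 ≤ (max l1 l2) ^ J := by positivity
    have h4 : c2 * l2 ^ J * (2 * κ) ≤ c * (max l1 l2) ^ J * κ := by
      have h5 : c2 * l2 ^ J * (2 * κ) ≤ c2 * (max l1 l2) ^ J * (2 * κ) :=
        mul_le_mul_of_nonneg_right (mul_le_mul_of_nonneg_left h2 (by linarith)) (by linarith)
      have h6 : 0 ≤ c1 * (max l1 l2) ^ J * κ := by positivity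
      rw [hc]; nlinarith
    exact mul_le_mul_of_nonneg_right h4 (norm_nonneg _)
  · intro J x hJ v hv
    have hT : C.T x v = v := by
      have h1 : C'.T x * Q 1 x = Q 1 x := mT1 x
      calc C.T x v = C'.T x (Q 1 x v) := by rw [hv]; rfl
        _ = (C'.T x * Q 1 x) v := rfl
        _ = v := by rw [h1, hv]
    have hz : Q2 x v = 0 := by
      have h1 : Q2 x * Q 1 x = 0 := m21 x
      calc Q2 x v = Q2 x (Q 1 x v) := by rw [hv]
        _ = (Q2 x * Q 1 x) v := rfl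
        _ = 0 := by rw [h1]; rfl
    have h1 := fut2 J x hJ v hT hz
    refine h1.trans ?_
    have h2 := (hlJ J).1
    have hκx := hκ0 x
    have h3 : 0 ≤ (max l1 l2) ^ J := by positivity
    have h4 : c1 * l1 ^ J * (2 * κ) ≤ c * (max l1 l2) ^ J * κ := by
      have h5 : c1 * l1 ^ J * (2 * κ) ≤ c1 * (max l1 l2) ^ J * (2 * κ) :=
        mul_le_mul_of_nonneg_right (mul_le_mul_of_nonneg_left h2 (by linarith)) (by linarith)
      have h6 : 0 ≤ c2 * (max l1 l2) ^ J * κ := by positivity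
      rw [hc]; nlinarith
    exact mul_le_mul_of_nonneg_right h4 (norm_nonneg _)

end Pool.Agent.Helper33.RZ
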